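import Pool.Agent.H226.DE.AprN

/-!
The a priori bounds with dissipation, uniform in the multiplier (the same proof as in
`Pool.Agent.H226.DE.AprN`).
-/

open MeasureTheory Set Filter Topology
open scoped ENNReal InnerProductSpace NNReal
open H459R3.NS Pool.Agent.X96.HT Pool.Agent.X96.DM

namespace Pool.Agent.H226.DE

open Pool.Agent.H226.SW hiding Fk Fk_apply

/-- a priori bound with dissipation -/
theorem aprU (H : ℝ) (hH0 : 0 ≤ H) {ν' : ℝ} (hν : 0 < ν') (E₀ : ℝ) (hE₀ : 0 ≤ E₀)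
    {𝒟 : Set (K3 → ℂ)} (hD𝒟 : ∀ D ∈ 𝒟, ∀ k, D (-k) = (starRingEnd ℂ) (D k))
    (hDν𝒟 : ∀ D ∈ 𝒟, ∀ k, ν' * kn k ^ 2 ≤ (D k).re)
    (hfew : ∀ Λ : ℝ, 0 ≤ Λ → ∃ C, 1 ≤ C ∧ ∀ D ∈ 𝒟,
      Few (fun L m => |dl (fun k => (D k).im) L m| ≤ Λ * kn L ^ 3) C) (m : ℕ) :
    ∃ B : ℝ, 0 ≤ B ∧ ∀ D ∈ 𝒟, ∀ (η : Md → Md → Md → ℝ), IsWeight η →
      (∀ a b c, |η a b c| ≤ H) →
      ∀ S : Finset K3, (0 : K3) ∉ S → ∀ (T : ℝ) (a : ℝ → K3 → C3), GalC η D T S a →
      hn 0 (a 0) ≤ E₀ → ∀ t ∈ Icc 0 T,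
        hn (2 * (m + 1)) (a t) ≤ B * hn (2 * (m + 1)) (a 0) := by
  have hcB := cB_nonneg hH0
  have hcQ := cQ_nonneg (2 * m) 1
  set s : ℕ := m + 1 with hs
  set Λ : ℝ := 12 * cB H * (E₀ + 216 * 2 ^ (2 * s + 2))
    + 12 * cB H ^ 2 * (cQ (2 * m) 1 * E₀) / ν' + 1 with hΛ
  have hΛ0 : 0 < Λ := by positivity
  obtain ⟨C, hC1, hC𝒟⟩ := hfew (8 * Λ) (by positivity)
  set ρ : ℝ := ν' / (36 * (cB H + 1) * C * (1 + 4 ^ (s + 1) * E₀)) with hρ
  set θ : ℝ := ν' / (36 * (cB H + 1)) with hθ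
  have hC0 : 0 < C := by linarith
  have hρ0 : 0 < ρ := by positivity
  have hθ0 : 0 < θ := by positivity
  set K : ℝ := 18 * cB H * (C * 4 ^ s / (2 * θ * ρ ^ 2)) with hK
  have hK0 : 0 ≤ K := by positivity
  refine ⟨3 * Real.exp (K / ν' * E₀), by positivity, fun D hDm η hη hH S h0 T a h hE t ht => ?_⟩
  have hD := hD𝒟 D hDm
  have hDν := hDν𝒟 D hDm
  have hC := hC𝒟 D hDm
  have hD0 : ∀ k, 0 ≤ (D k).re := fun k => le_trans (by positivity) (hDν k)
  classical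
  set P : Finset (K3 × K3) := (AS S).filter fun z => Λ * mx z ^ 3 ≤ ‖Zc D z‖ with hP
  have hPS : P ⊆ AS S := Finset.filter_subset _ _
  have hZ3 : ∀ z ∈ P, Λ * mx z ^ 3 ≤ ‖Zc D z‖ := fun z hz => (Finset.mem_filter.1 hz).2
  have hmx1 : ∀ z ∈ AS S, 1 ≤ mx z := fun z hz =>
    (one_le_kn fun e => h0 (e ▸ (mem_AS.1 hz).1.1)).trans (le_mx1 z)
  have hZ0 : ∀ z ∈ P, Zc D z ≠ 0 := by
    intro z hz e
    have h1 := hZ3 z hz
    have h2 : 0 < mx z := by linarith [hmx1 z (hPS hz)]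
    rw [e, norm_zero] at h1
    have : 0 < Λ * mx z ^ 3 := by positivity
    linarith
  have hEt : ∀ t ∈ Icc 0 T, ∑ k ∈ S, ∑ i, ‖a t k i‖ ^ 2 ≤ E₀ := by
    intro t ht
    have h1 := (h.energy hη hD0 ht).trans hE
    rw [hn_fin (h.supp t)] at h1
    simpa using h1
  set f : ℝ → ℝ := fun t => nw S (fun k => kn k ^ (2 * s)) (a t)
    - 2 * gc η D P (fun k => kn k ^ (2 * s)) (a t) with hf
  have hcomp : ∀ t ∈ Icc 0 T, 2 * |gc η D P (fun k => kn k ^ (2 * s)) (a t)|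
      ≤ hn (2 * s) (a t) / 2 := by
    intro t ht
    have h1 := corr_le (s := s) hH h0 (h.supp t) (hEt t ht) hPS hΛ0 hZ3
    have h2 := XS_le_hn (h.supp t) (2 * s)
    have h3 : 3 * cB H / Λ * (E₀ + 216 * 2 ^ (2 * s + 2)) ≤ 1 / 4 := by
      rw [div_mul_eq_mul_div, div_le_div_iff₀ hΛ0 (by norm_num)]
      have : 0 ≤ 12 * cB H ^ 2 * (cQ (2 * m) 1 * E₀) / ν' := by positivity
      rw [hΛ]
      linarith
    have h4 : 0 ≤ XS S (fun k => ‖a t k‖) (2 * s) := Ad.XS_nonneg _ _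
    calc 2 * |gc η D P (fun k => kn k ^ (2 * s)) (a t)|
        ≤ 2 * (3 * cB H / Λ * ((E₀ + 216 * 2 ^ (2 * s + 2)) * XS S (fun k => ‖a t k‖) (2 * s))) := by
          gcongr
      _ = 2 * ((3 * cB H / Λ * (E₀ + 216 * 2 ^ (2 * s + 2))) * XS S (fun k => ‖a t k‖) (2 * s)) := by
          ring
      _ ≤ 2 * (1 / 4 * hn (2 * s) (a t)) := by gcongr
      _ = _ := by ring
  have hfl : ∀ t ∈ Icc 0 T, hn (2 * s) (a t) ≤ 2 * f t := by
    intro t ht
    have h1 := hcomp t ht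
    have h2 := le_abs_self (gc η D P (fun k => kn k ^ (2 * s)) (a t))
    simp only [hf]
    rw [nw_hn (h.supp t)]
    linarith
  have hhn : ∀ t ∈ Icc 0 T, ∀ n, 0 ≤ hn n (a t) := by
    intro t _ n
    rw [← nw_hn (h.supp t)]
    exact nw_nonneg (fun k _ => pow_nonneg (kn_nonneg _) _) _
  have hf0 : ∀ t ∈ Icc 0 T, 0 ≤ f t := by
    intro t ht
    have h1 := hfl t ht
    have h2 := hhn t ht (2 * s)
    linarith
  have hfu : f 0 ≤ 3 / 2 * hn (2 * s) (a 0) := by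
    have h1 := hcomp 0 ⟨le_rfl, ht.1.trans ht.2⟩
    have h2 := neg_abs_le (gc η D P (fun k => kn k ^ (2 * s)) (a 0))
    simp only [hf]
    rw [nw_hn (h.supp 0)]
    linarith
  have hd := fun t (ht : t ∈ Icc 0 T) => h.mod_deriv hH ht hPS hZ0 fun k => kn k ^ (2 * s)
  have hb : ∀ t ∈ Icc 0 T, -(2 * nw S (fun k => kn k ^ (2 * s) * (D k).re) (a t))
        - 2 * ∑ z ∈ AS S \ P, kn z.1 ^ (2 * s) * (tu η (a t) z).re
        + 2 * ∑ z ∈ P, kn z.1 ^ (2 * s) * (qu η (a t) z / Zc D z).re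
        ≤ 2 * K * hn 2 (a t) * f t := by
    intro t ht
    have hY := XS_le_hn (h.supp t) (2 * s + 2)
    have hY0 : 0 ≤ XS S (fun k => ‖a t k‖) (2 * s + 2) := Ad.XS_nonneg _ _
    have h1 : ν' * hn (2 * s + 2) (a t) ≤ nw S (fun k => kn k ^ (2 * s) * (D k).re) (a t) := by
      rw [← nw_hn (h.supp t)]
      have e : ν' * nw S (fun k => kn k ^ (2 * s + 2)) (a t)
          = nw S (fun k => ν' * kn k ^ (2 * s + 2)) (a t) := by
        unfold nw
        rw [Finset.mul_sum]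
        refine Finset.sum_congr rfl fun k _ => ?_
        ring
      rw [e]
      refine nw_le fun k => ?_
      have hk := kn_nonneg k
      calc ν' * kn k ^ (2 * s + 2) = kn k ^ (2 * s) * (ν' * kn k ^ 2) := by ring
        _ ≤ _ := by gcongr; exact hDν k
    have h3 := quart (a := 2 * m) (c := 1) (s := s) hH h0 (h.supp t) (hEt t ht) hPS (by omega) hΛ0
      (fun z hz => hZ3 z hz)
    have e : 2 * m + 4 = 2 * s + 2 := by omega
    rw [e] at h3
    have h3' : 3 * cB H ^ 2 / Λ * (cQ (2 * m) 1 * E₀ * XS S (fun k => ‖a t k‖) (2 * s + 2))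
        ≤ ν' / 4 * XS S (fun k => ‖a t k‖) (2 * s + 2) := by
      have h4 : 3 * cB H ^ 2 / Λ * (cQ (2 * m) 1 * E₀) ≤ ν' / 4 := by
        rw [div_mul_eq_mul_div, div_le_div_iff₀ hΛ0 (by norm_num)]
        have h5 : 12 * cB H ^ 2 * (cQ (2 * m) 1 * E₀) / ν' ≤ Λ := by
          have : 0 ≤ 12 * cB H * (E₀ + 216 * 2 ^ (2 * s + 2)) := by positivity
          rw [hΛ]
          linarith
        rw [div_le_iff₀ hν] at h5
        linarith
      calc _ = (3 * cB H ^ 2 / Λ * (cQ (2 * m) 1 * E₀)) * XS S (fun k => ‖a t k‖) (2 * s + 2) := by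
            ring
        _ ≤ _ := by gcongr
    have hA := ad_of h0 (h.supp t) (hEt t ht)
    have hnear := hA.near_le (fun k => by
        show ‖a t (-k)‖ = ‖a t k‖
        rw [h.real t k]; exact norm_cj _)
      (g := fun k => (D k).im) (fun k => by
        show (D (-k)).im = -(D k).im
        rw [hD, Complex.conj_im]) hC hC1 hΛ0.le s hρ0 hθ0 (Q := AS S \ P)
      Finset.sdiff_subset (fun z hz => by
        obtain ⟨g1, g2⟩ := Finset.mem_sdiff.1 hz
        have g3 : ‖Zc D z‖ ≤ Λ * mx z ^ 3 := by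
          by_contra hn
          exact g2 (Finset.mem_filter.2 ⟨g1, (not_le.1 hn).le⟩)
        exact (im_Zc hD z).trans g3)
    have h2 : |∑ z ∈ AS S \ P, kn z.1 ^ (2 * s) * (tu η (a t) z).re|
        ≤ 3 * cB H * ∑ z ∈ AS S \ P, kn z.1 ^ (2 * s + 1) * ‖a t z.1‖ * ‖a t z.2‖
          * ‖a t (z.1 - z.2)‖ := by
      rw [Finset.mul_sum]
      refine (Finset.abs_sum_le_sum_abs _ _).trans (Finset.sum_le_sum fun z _ => ?_)
      have hk := kn_nonneg z.1
      rw [abs_mul, abs_of_nonneg (pow_nonneg hk _)]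
      have h5 := (Complex.abs_re_le_norm _).trans (norm_tu_le (U := a t) hH z)
      calc kn z.1 ^ (2 * s) * |(tu η (a t) z).re|
          ≤ kn z.1 ^ (2 * s) * (3 * cB H
            * (kn z.1 * ‖a t z.1‖ * ‖a t z.2‖ * ‖a t (z.1 - z.2)‖)) := by gcongr
        _ = _ := by ring
    have hq1 : 9 * cB H * (ρ * C * (1 + 4 ^ (s + 1) * E₀)) ≤ ν' / 4 := by
      have e1 : ρ * C * (1 + 4 ^ (s + 1) * E₀) = ν' / (36 * (cB H + 1)) := by
        rw [hρ]
        field_simp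
      rw [e1, mul_div_assoc', div_le_div_iff₀ (by positivity) (by norm_num)]
      nlinarith
    have hq2 : 9 * cB H * θ ≤ ν' / 4 := by
      rw [hθ, mul_div_assoc', div_le_div_iff₀ (by positivity) (by norm_num)]
      nlinarith
    have h6 : 2 * (3 * cB H * ∑ z ∈ AS S \ P, kn z.1 ^ (2 * s + 1) * ‖a t z.1‖ * ‖a t z.2‖
          * ‖a t (z.1 - z.2)‖)
        ≤ ν' / 2 * XS S (fun k => ‖a t k‖) (2 * s + 2)
          + K * (XS S (fun k => ‖a t k‖) 2 * XS S (fun k => ‖a t k‖) (2 * s)) := by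
      calc _ ≤ 2 * (3 * cB H * (3 * ((ρ * C * (1 + 4 ^ (s + 1) * E₀) / 2 + θ / 2)
            * XS S (fun k => ‖a t k‖) (2 * s + 2)
            + C * 4 ^ s / (2 * θ * ρ ^ 2)
              * (XS S (fun k => ‖a t k‖) 2 * XS S (fun k => ‖a t k‖) (2 * s))))) := by gcongr
        _ = (9 * cB H * (ρ * C * (1 + 4 ^ (s + 1) * E₀)) + 9 * cB H * θ)
            * XS S (fun k => ‖a t k‖) (2 * s + 2)
            + K * (XS S (fun k => ‖a t k‖) 2 * XS S (fun k => ‖a t k‖) (2 * s)) := by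
            rw [hK]; ring
        _ ≤ (ν' / 4 + ν' / 4) * XS S (fun k => ‖a t k‖) (2 * s + 2)
            + K * (XS S (fun k => ‖a t k‖) 2 * XS S (fun k => ‖a t k‖) (2 * s)) := by gcongr
        _ = _ := by ring
    have h7 : K * (XS S (fun k => ‖a t k‖) 2 * XS S (fun k => ‖a t k‖) (2 * s))
        ≤ K * (hn 2 (a t) * (2 * f t)) := by
      have g1 := XS_le_hn (h.supp t) 2
      have g2 := (XS_le_hn (h.supp t) (2 * s)).trans (hfl t ht)
      have g3 : 0 ≤ XS S (fun k => ‖a t k‖) (2 * s) := Ad.XS_nonneg _ _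
      have g4 := hhn t ht 2
      gcongr
    have h9 := (abs_le.1 h2).1
    have h10 := (abs_le.1 h3).2
    have h11 : 0 ≤ ν' * hn (2 * s + 2) (a t) := mul_nonneg hν.le (hhn t ht _)
    have h12 : ν' * XS S (fun k => ‖a t k‖) (2 * s + 2) ≤ ν' * hn (2 * s + 2) (a t) := by gcongr
    linarith
  -- the product with the exponential of the energy
  set κ : ℝ := K / ν' with hκ
  have hκ0 : 0 ≤ κ := by positivity
  set F : ℝ → ℝ := fun s => Real.exp (κ * hn 0 (a s)) * f s with hF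
  have hFd : ∀ s' ∈ Icc 0 T, HasDerivWithinAt F
      (Real.exp (κ * hn 0 (a s')) * (κ * (-(2 * nw S (fun k => 1 * (D k).re) (a s')))) * f s'
        + Real.exp (κ * hn 0 (a s')) * (-(2 * nw S (fun k => kn k ^ (2 * s) * (D k).re) (a s'))
        - 2 * ∑ z ∈ AS S \ P, kn z.1 ^ (2 * s) * (tu η (a s') z).re
        + 2 * ∑ z ∈ P, kn z.1 ^ (2 * s) * (qu η (a s') z / Zc D z).re)) (Icc 0 T) s' := by
    intro s' hs'
    exact (((h.energy_deriv hη hs').const_mul κ).exp).mul (hd s' hs')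
  have hanti : AntitoneOn F (Icc 0 T) := by
    refine antitoneOn_of_hasDerivWithinAt_nonpos (convex_Icc 0 T)
      (fun s hs => (hFd s hs).continuousWithinAt)
      (fun s hs => (hFd s (interior_subset hs)).mono interior_subset) fun s' hs => ?_
    have hs' := interior_subset hs
    have h1 := hb s' hs'
    have h2 : 0 < Real.exp (κ * hn 0 (a s')) := Real.exp_pos _
    have h3 : ν' * hn 2 (a s') ≤ nw S (fun k => 1 * (D k).re) (a s') := by
      rw [← nw_hn (h.supp s')]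
      have e : ν' * nw S (fun k => kn k ^ 2) (a s')
          = nw S (fun k => ν' * kn k ^ 2) (a s') := by
        unfold nw
        rw [Finset.mul_sum]
        refine Finset.sum_congr rfl fun k _ => ?_
        ring
      rw [e]
      refine nw_le fun k => ?_
      rw [one_mul]
      exact hDν k
    have h4 : κ * (-(2 * nw S (fun k => 1 * (D k).re) (a s'))) ≤ -(2 * K * hn 2 (a s')) := by
      have h5 : κ * (ν' * hn 2 (a s')) ≤ κ * nw S (fun k => 1 * (D k).re) (a s') := by gcongr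
      have h6 : κ * (ν' * hn 2 (a s')) = K * hn 2 (a s') := by
        rw [hκ]; field_simp
      linarith
    have h7 := hf0 s' hs'
    have h8 : κ * (-(2 * nw S (fun k => 1 * (D k).re) (a s'))) * f s'
        ≤ -(2 * K * hn 2 (a s')) * f s' := by gcongr
    have h9 : κ * (-(2 * nw S (fun k => 1 * (D k).re) (a s'))) * f s'
        + (-(2 * nw S (fun k => kn k ^ (2 * s) * (D k).re) (a s'))
        - 2 * ∑ z ∈ AS S \ P, kn z.1 ^ (2 * s) * (tu η (a s') z).re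
        + 2 * ∑ z ∈ P, kn z.1 ^ (2 * s) * (qu η (a s') z / Zc D z).re) ≤ 0 := by linarith
    have h10 := mul_nonpos_of_nonneg_of_nonpos h2.le h9
    linarith
  have h0' : (0 : ℝ) ∈ Icc 0 T := ⟨le_rfl, ht.1.trans ht.2⟩
  have h1 := hanti h0' ht ht.1
  simp only [hF] at h1
  have h2 : f t ≤ Real.exp (κ * E₀) * f 0 := by
    have h3 : 1 ≤ Real.exp (κ * hn 0 (a t)) := Real.one_le_exp (mul_nonneg hκ0 (hhn t ht 0))
    have h4 : Real.exp (κ * hn 0 (a 0)) ≤ Real.exp (κ * E₀) := by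
      apply Real.exp_le_exp.2
      gcongr
    have h5 := hf0 t ht
    have h6 := hf0 0 h0'
    calc f t = 1 * f t := (one_mul _).symm
      _ ≤ Real.exp (κ * hn 0 (a t)) * f t := by gcongr
      _ ≤ Real.exp (κ * hn 0 (a 0)) * f 0 := h1
      _ ≤ _ := by gcongr
  calc hn (2 * s) (a t) ≤ 2 * f t := hfl t ht
    _ ≤ 2 * (Real.exp (κ * E₀) * f 0) := by gcongr
    _ ≤ 2 * (Real.exp (κ * E₀) * (3 / 2 * hn (2 * s) (a 0))) := by gcongr
    _ = _ := by ring

end Pool.Agent.H226.DE
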