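import Pool.Agent.H226.DE.Lim

/-!
The limit of the Galerkin approximations, with the bounds of the norms of the limit (the same proof
as in `Pool.Agent.H226.DE.Lim`, with one more conclusion).
-/

open MeasureTheory Set Filter Topology
open scoped ENNReal InnerProductSpace NNReal
open H459R3.NS Pool.Agent.X96.HT
open Pool.Agent.X96.DM hiding LL Fk Fk_apply exists_lim

namespace Pool.Agent.H226.DE

open Pool.Agent.H226.SW hiding Fk Fk_apply Pol D_bw L2 norm_visc norm_Fk_le Fk_sub_le exists_lim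

variable {η : Md → Md → Md → ℝ} {D : K3 → ℂ} {S : Finset K3} {Cd : ℝ} {r : ℕ}

theorem exists_limB (hη : IsWeight η) (hDn : ∀ k, D (-k) = (starRingEnd ℂ) (D k))
    (hD0 : ∀ k, 0 ≤ (D k).re) (hD : PolC Cd r D) {Λ : Set K3} (hΛ : ∀ k ∈ Λ, -k ∈ Λ)
    (hΛ0 : (0 : K3) ∉ Λ) {U₀ : K3 → C3} (hU : RapV U₀) {B : ℝ → ℕ → ℝ}
    (hBm : ∀ n, Monotone fun t => B t n)
    (hap : ∀ S : Finset K3, (0 : K3) ∉ S → ↑S ⊆ Λ → ∀ (T : ℝ) (a : ℝ → K3 → C3),
      GalC η D T S a → (∀ n, hn n (a 0) ≤ hn n U₀) → ∀ t ∈ Icc 0 T, ∀ n, hn n (a t) ≤ B t n)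
    (hsupp : ∀ k ∉ Λ, U₀ k = 0) (hdiv : ∀ k, dp (kc k) (U₀ k) = 0)
    (hreal : ∀ k, U₀ (-k) = cj (U₀ k)) :
    ∃ a : ℝ → K3 → C3, a 0 = U₀ ∧ (∀ t k, a t (-k) = cj (a t k)) ∧
      (∀ t k, dp (kc k) (a t k) = 0) ∧ (∀ t, ∀ k ∉ Λ, a t k = 0) ∧
      (∀ T, 0 ≤ T → ∀ t ≤ T, ∀ k m, kn k ^ m * ‖a t k‖ ^ 2 ≤ B T m) ∧
      (∀ T, 0 ≤ T → ∀ t ≤ T, ∀ m, hn m (a t) ≤ B T m) ∧
      (∀ k, Continuous fun t => a t k) ∧
      (∀ t, 0 < t → ∀ k ∈ Λ, HasDerivAt (fun s => a s k) (Fk η D (a t) k) t) := by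
  obtain ⟨H, hH⟩ := hη.bdd
  have hH0 : 0 ≤ H := (abs_nonneg _).trans (hH (0, true) (0, true) (0, true))
  have hex : ∀ n : ℕ, ∃ a, GalC η D n (FL Λ n) a ∧ a 0 = tS (FL Λ n) U₀ := by
    intro n
    refine exists_gal hη hDn hD0 (FL_neg hΛ) (Nat.cast_nonneg n) (fun k hk => tS_not U₀ hk)
      (fun k => ?_) fun k => ?_
    · by_cases hk : k ∈ FL Λ n
      · rw [tS_mem _ hk]; exact hdiv k
      · rw [tS_not _ hk]; unfold dp; simp
    · by_cases hk : k ∈ FL Λ n
      · rw [tS_mem _ hk, tS_mem _ (FL_neg hΛ k hk)]; exact hreal k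
      · have hk' : -k ∉ FL Λ n := fun h => hk (by simpa using FL_neg hΛ _ h)
        rw [tS_not _ hk, tS_not _ hk']; funext i; simp [cj]
  choose A hA hA0 using hex
  set C6 : ℝ → ℝ := fun T => Real.sqrt (B T (2 * (r + 6))) with hC6
  have hC60 : ∀ T, 0 ≤ C6 T := fun T => Real.sqrt_nonneg _
  have hbd : ∀ T : ℝ, ∀ n : ℕ, T ≤ n → ∀ t ∈ Icc (0 : ℝ) T, ∀ k m,
      kn k ^ m * ‖A n t k‖ ^ 2 ≤ B T m := by
    intro T n hn t ht k m
    refine (pow_sq_le_hn (rapV_fin ((hA n).supp t)) m k).trans ?_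
    refine le_trans ?_ (hBm m ht.2)
    refine hap (FL Λ n) zero_notMem_FL (FL_sub Λ n) n (A n) (hA n) (fun m => ?_) t
      ⟨ht.1, ht.2.trans hn⟩ m
    rw [hA0]
    exact hn_tS_le hU _ m
  have hbd' : ∀ T : ℝ, ∀ n : ℕ, T ≤ n → ∀ t ∈ Icc (0 : ℝ) T, ∀ m, hn m (A n t) ≤ B T m := by
    intro T n hn t ht m
    refine le_trans ?_ (hBm m ht.2)
    refine hap (FL Λ n) zero_notMem_FL (FL_sub Λ n) n (A n) (hA n) (fun m => ?_) t
      ⟨ht.1, ht.2.trans hn⟩ m
    rw [hA0]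
    exact hn_tS_le hU _ m
  have hbe : ∀ T : ℝ, ∀ n : ℕ, T ≤ n → ∀ t ∈ Icc (0 : ℝ) T, ∀ k, ‖A n t k‖ ≤ bw r (C6 T) k := by
    intro T n hn t ht k
    refine le_bw (fun hk => ?_) fun m => hbd T n hn t ht k m
    rw [hk]; exact (hA n).supp t 0 zero_notMem_FL
  set 𝓕 : Ultrafilter ℕ := hyperfilter ℕ with h𝓕
  have hev : ∀ t : ℝ, ∀ᶠ n : ℕ in (𝓕 : Filter ℕ), t ≤ (n : ℝ) := by
    intro t
    have : ∀ᶠ n : ℕ in atTop, t ≤ n := eventually_ge_atTop ⌈t⌉₊ |>.mono fun n hn => Nat.ceil_le.1 hn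
    exact Nat.hyperfilter_le_atTop this
  have hlim : ∀ (t : ℝ) (k : K3), ∃ x, Tendsto (fun n => A n (max t 0) k) 𝓕 (𝓝 x) := by
    intro t k
    have hc : IsCompact (Metric.closedBall (0 : C3) (bw r (C6 (max t 0)) k)) :=
      isCompact_closedBall _ _
    obtain ⟨x, -, hx⟩ := hc.ultrafilter_le_nhds (𝓕.map fun n => A n (max t 0) k) (by
      rw [le_principal_iff]
      show ∀ᶠ n in (𝓕 : Filter ℕ), A n (max t 0) k ∈ Metric.closedBall (0 : C3)
        (bw r (C6 (max t 0)) k)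
      refine (hev (max t 0)).mono fun n hn => ?_
      rw [mem_closedBall_zero_iff]
      exact hbe _ n hn _ ⟨le_max_right _ _, le_rfl⟩ k)
    exact ⟨x, hx⟩
  choose a ha using hlim
  have hmax : ∀ t, a (max t 0) = a t := by
    intro t
    funext k
    have h1 := ha (max t 0) k
    rw [max_eq_left (le_max_right t 0)] at h1
    exact tendsto_nhds_unique h1 (ha t k)
  have hAe : ∀ t, ∀ᶠ n in (𝓕 : Filter ℕ), ∀ k, ‖A n (max t 0) k‖ ≤ bw r (C6 (max t 0)) k :=
    fun t => (hev (max t 0)).mono fun n hn k => hbe _ n hn _ ⟨le_max_right _ _, le_rfl⟩ k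
  have hF : ∀ t k, Tendsto (fun n => Fk η D (A n (max t 0)) k) 𝓕 (𝓝 (Fk η D (a t) k)) := by
    intro t k
    unfold Fk
    refine Tendsto.sub (Tendsto.const_smul (ha t k) _) ?_
    exact tendsto_nonl hH (be6_summable (hC60 (max t 0))) (be6_nonneg (hC60 (max t 0)))
      ((hAe t).mono fun n hn k => (hn k).trans (bw_le (hC60 _) k)) (ha t) k
  have hmem : ∀ k : K3, k ∈ Λ → ∀ᶠ n in (𝓕 : Filter ℕ), k ∈ FL Λ n := by
    intro k hk
    have hk0 : k ≠ 0 := fun e => hΛ0 (e ▸ hk)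
    have : ∀ᶠ n : ℕ in atTop, N k ≤ n := eventually_ge_atTop (N k)
    exact Filter.Eventually.mono (Nat.hyperfilter_le_atTop this) fun n hn =>
      mem_FL.2 ⟨⟨hk0, hn⟩, hk⟩
  have haΛ : ∀ t, ∀ k ∉ Λ, a t k = 0 := by
    intro t k hk
    refine tendsto_nhds_unique (ha t k) ?_
    have : (fun n => A n (max t 0) k) = fun _ => 0 := by
      funext n; exact (hA n).supp _ k fun h => hk (FL_sub Λ n (Finset.mem_coe.2 h))
    rw [this]; exact tendsto_const_nhds
  have hLip : ∀ T s t k, s ∈ Icc 0 T → t ∈ Icc 0 T →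
      ‖a s k - a t k‖ ≤ LL Cd r H (C6 T) * |s - t| := by
    intro T s t k hs ht
    have h1 : Tendsto (fun n => ‖A n (max s 0) k - A n (max t 0) k‖) 𝓕 (𝓝 ‖a s k - a t k‖) :=
      ((ha s k).sub (ha t k)).norm
    refine le_of_tendsto h1 ?_
    filter_upwards [hev T] with n hn1
    rw [max_eq_left hs.1, max_eq_left ht.1]
    exact ((hA n).mono hn1).lip hH hD (hC60 T) (hbe T n hn1) hs ht k
  have hTay : ∀ T s t, ∀ k ∈ Λ, s ∈ Icc 0 T → t ∈ Icc 0 T →
      ‖a s k - a t k - (s - t) • Fk η D (a t) k‖ ≤ L2 D Cd r H (C6 T) k * |s - t| * |s - t| := by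
    intro T s t k hk hs ht
    have h1 : Tendsto (fun n => ‖A n (max s 0) k - A n (max t 0) k
          - (s - t) • Fk η D (A n (max t 0)) k‖) 𝓕
          (𝓝 ‖a s k - a t k - (s - t) • Fk η D (a t) k‖) :=
        (((ha s k).sub (ha t k)).sub (Tendsto.const_smul (hF t k) _)).norm
    refine le_of_tendsto h1 ?_
    filter_upwards [hev T, hmem k hk] with n hn1 hn3
    rw [max_eq_left hs.1, max_eq_left ht.1]
    exact ((hA n).mono hn1).taylor hH hD (hC60 T) (hbe T n hn1) hs ht hn3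
  refine ⟨a, ?_, ?_, ?_, haΛ, ?_, ?_, ?_, ?_⟩
  · funext k
    refine tendsto_nhds_unique (ha 0 k) ?_
    rw [max_self]
    by_cases hk : k ∈ Λ
    · refine tendsto_const_nhds.congr' ?_
      filter_upwards [hmem k hk] with n hn
      rw [hA0, tS_mem _ hn]
    · have : (fun n => A n 0 k) = fun _ => U₀ k := by
        funext n; rw [hsupp k hk]
        exact (hA n).supp _ k fun h => hk (FL_sub Λ n (Finset.mem_coe.2 h))
      rw [this]; exact tendsto_const_nhds
  · intro t k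
    have hcj : Continuous cj := by
      unfold cj
      exact continuous_pi fun i => Complex.continuous_conj.comp (continuous_apply i)
    refine tendsto_nhds_unique (ha t (-k)) ?_
    have h1 := (hcj.tendsto (a t k)).comp (ha t k)
    refine h1.congr fun n => ?_
    exact ((hA n).real _ k).symm
  · intro t k
    have hdp : Continuous fun x : C3 => dp (kc k) x := by unfold dp; fun_prop
    refine tendsto_nhds_unique ((hdp.tendsto (a t k)).comp (ha t k)) ?_
    have : ((fun x : C3 => dp (kc k) x) ∘ fun n => A n (max t 0) k) = fun _ => 0 := by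
      funext n; exact (hA n).div _ k
    rw [this]; exact tendsto_const_nhds
  · intro T hT t ht k m
    have h1 : Tendsto (fun n => kn k ^ m * ‖A n (max t 0) k‖ ^ 2) 𝓕 (𝓝 (kn k ^ m * ‖a t k‖ ^ 2)) :=
      (((ha t k).norm).pow 2).const_mul _
    refine le_of_tendsto h1 ?_
    filter_upwards [hev T] with n hn
    exact hbd T n hn _ ⟨le_max_right _ _, max_le ht hT⟩ k m
  · intro T hT t ht m
    have hnn : ∀ k, 0 ≤ kn k ^ m * ∑ i, ‖a t k i‖ ^ 2 := fun k => by
      have := kn_nonneg k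
      positivity
    have hB0 : 0 ≤ B T m := by
      obtain ⟨n, hnT⟩ := (hev T).exists
      refine le_trans ?_ (hbd' T n hnT (max t 0) ⟨le_max_right _ _, max_le ht hT⟩ m)
      unfold hn
      exact tsum_nonneg fun k => by
        have := kn_nonneg k
        positivity
    unfold hn
    refine tsum_le_of_sum_le' hB0 fun F => ?_
    have h1 : Tendsto (fun n => ∑ k ∈ F, kn k ^ m * ∑ i, ‖A n (max t 0) k i‖ ^ 2) 𝓕
        (𝓝 (∑ k ∈ F, kn k ^ m * ∑ i, ‖a t k i‖ ^ 2)) := by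
      refine tendsto_finsetSum _ fun k _ => Tendsto.const_mul _ ?_
      refine tendsto_finsetSum _ fun i _ => ?_
      exact (((tendsto_pi_nhds.1 (ha t k)) i).norm).pow 2
    refine le_of_tendsto h1 ?_
    filter_upwards [hev T] with n hnT
    refine le_trans ?_ (hbd' T n hnT _ ⟨le_max_right _ _, max_le ht hT⟩ m)
    have hr := rapV_fin ((hA n).supp (max t 0))
    unfold hn
    exact (hr.hn_summable m).sum_le_tsum F fun k _ => by
      have := kn_nonneg k
      positivity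
  · intro k
    have h1 : ∀ T, 0 ≤ T → ∀ s ≤ T, ∀ t ≤ T, ‖a s k - a t k‖ ≤ LL Cd r H (C6 T) * |s - t| := by
      intro T hT s hs t ht
      have hl0 : 0 ≤ LL Cd r H (C6 T) := by
        have h2 := hLip T 0 T k ⟨le_rfl, hT⟩ ⟨hT, le_rfl⟩
        by_contra hneg
        have h3 : Tendsto (fun n => ‖Fk η D (A n (max 0 0)) k‖) 𝓕 (𝓝 ‖Fk η D (a 0) k‖) :=
          (hF 0 k).norm
        have h4 : ‖Fk η D (a 0) k‖ ≤ LL Cd r H (C6 T) := le_of_tendsto h3 (by
          filter_upwards [hev T] with n hn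
          refine norm_Fk_le hH hD (hC60 T) (fun p => hbe T n hn _ ?_ p) k
          rw [max_self]
          exact ⟨le_rfl, hT⟩)
        exact hneg ((norm_nonneg _).trans h4)
      rw [← hmax s, ← hmax t]
      refine (hLip T _ _ k ⟨le_max_right _ _, max_le hs hT⟩ ⟨le_max_right _ _, max_le ht hT⟩).trans ?_
      refine mul_le_mul_of_nonneg_left ?_ hl0
      exact abs_max_sub_max_le_abs _ _ _
    rw [continuous_iff_continuousAt]
    intro t
    set T := max t 0 + 1 with hT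
    have hT0 : 0 ≤ T := by have := le_max_right t 0; linarith
    have htT : t < T := by have := le_max_left t 0; linarith
    rw [Metric.continuousAt_iff]
    intro ε hε
    have hl0 : 0 ≤ LL Cd r H (C6 T) := by
      have h2 := h1 T hT0 (T - 1) (by linarith) T le_rfl
      have e : |T - 1 - T| = 1 := by
        rw [show T - 1 - T = -1 by ring, abs_neg, abs_one]
      rw [e, mul_one] at h2
      exact (norm_nonneg _).trans h2
    refine ⟨min (T - t) (ε / (LL Cd r H (C6 T) + 1)), lt_min (by linarith) (by positivity), ?_⟩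
    intro s hs
    rw [Real.dist_eq] at hs
    have hs1 := hs.trans_le (min_le_left _ _)
    have hs2 := hs.trans_le (min_le_right _ _)
    have hsT : s ≤ T := by have := (abs_lt.1 hs1).2; linarith
    rw [dist_eq_norm]
    refine (h1 T hT0 s hsT t htT.le).trans_lt ?_
    rw [lt_div_iff₀ (by positivity)] at hs2
    have h5 := abs_nonneg (s - t)
    calc LL Cd r H (C6 T) * |s - t| ≤ |s - t| * (LL Cd r H (C6 T) + 1) := by
          rw [mul_add, mul_one, mul_comm]; linarith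
      _ < ε := hs2
  · intro t ht k hk
    refine hasDerivAt_of_taylor (L := L2 D Cd r H (C6 (t + 1)) k) ?_
    filter_upwards [lt_mem_nhds ht, gt_mem_nhds (lt_add_one t)] with s hs hs2
    exact hTay (t + 1) s t k hk ⟨hs.le, hs2.le⟩ ⟨ht.le, by linarith⟩

end Pool.Agent.H226.DE
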