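import Pool.Agent.H226.DE.Sol
import Pool.Agent.H303.DEG.Lim

/-!
The solution in physical space, with the bounds of the norms (the same proof as in
`Pool.Agent.H226.DE.Sol`, with one more conclusion).
-/

open MeasureTheory Set Filter Topology
open scoped ENNReal NNReal ContDiff
open H459R3.NS Pool.Agent.X96.HT
open Pool.Agent.X96.DM hiding LL Fk Fk_apply exists_lim TT_all exists_sol
open Pool.Agent.H356R3.NS (SFam RD TT pw pw_pos one_le_pw pw_sub cvv SF)

namespace Pool.Agent.H226.DE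

open Pool.Agent.H226.SW hiding Fk Fk_apply Pol D_bw L2 norm_visc norm_Fk_le Fk_sub_le exists_lim
  TT_all exists_sol

variable {η : Md → Md → Md → ℝ} {D : K3 → ℂ} {Cd : ℝ} {r : ℕ} {Λ : Set K3}

/-- existence -/
theorem exists_solB (hη : IsWeight η) (hDn : ∀ k, D (-k) = (starRingEnd ℂ) (D k))
    (hD0 : ∀ k, 0 ≤ (D k).re)
    (hD : PolC Cd r D) (hΛ : ∀ k ∈ Λ, -k ∈ Λ) (hΛ0 : (0 : K3) ∉ Λ)
    {u₀ : V → V} (hs : ContDiff ℝ ∞ u₀)
    (hper : Per u₀) (hdiv : ∀ x, ∑ i, pd i (fun y => u₀ y i) x = 0)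
    (hsupp : ∀ k ∉ Λ, co u₀ k = 0) {B : ℝ → ℕ → ℝ} (hBm : ∀ n, Monotone fun t => B t n)
    (hap : ∀ S : Finset K3, (0 : K3) ∉ S → ↑S ⊆ Λ → ∀ (T : ℝ) (a : ℝ → K3 → C3),
      GalC η D T S a → (∀ n, hn n (a 0) ≤ hn n (co u₀)) → ∀ t ∈ Icc 0 T, ∀ n,
        hn n (a t) ≤ B t n) :
    ∃ (u : ℝ → V → V) (a : ℝ → K3 → C3), IsSolC η D Λ (Ici 0) u ∧ u 0 = u₀ ∧
      (∀ t, 0 ≤ t → co (u t) = a t) ∧ (∀ i, TL fun k t => a t k i) ∧
      (∀ t k, a t (-k) = cj (a t k)) ∧ (∀ t, u t = uf a t) ∧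
      (∀ T, 0 ≤ T → ∀ t ≤ T, ∀ m, hn m (a t) ≤ B T m) := by
  have hsp : ∀ i, SP (fun x => u₀ x i) := fun i =>
    ⟨(contDiff_pi.1 hs) i, fun j x => congrFun (hper j x) i⟩
  obtain ⟨a, ha0, hreal, hdv, haΛ, hB, hBn, hc, hd⟩ := exists_limB hη hDn hD0 hD hΛ hΛ0
    (rapV_co hsp) hBm hap hsupp (dp_co hsp hdiv) fun k => by
      funext i; exact fr_neg_conj _ k
  have h0 : ∀ t, a t 0 = 0 := fun t => haΛ t 0 hΛ0
  have hTL : ∀ i, TL fun k t => a t k i := TL_of hη hD h0 haΛ hB hc hd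
  have hco : ∀ t, 0 ≤ t → co (uf a t) = a t := by
    intro t ht
    have h1 := co_uf (a := fun s => a (th t s)) (B := B (t + 1)) (fun s => h0 _)
      (fun s k m => hB (t + 1) (by linarith) _ (th_le t s) k m) (fun s k => hreal _ k) t
    have e : uf (fun s => a (th t s)) t = uf a t := by
      funext x i
      show (S (fun k => a (th t t) k i) x).re = (S (fun k => a t k i) x).re
      rw [th_eq le_rfl]
    rw [e, th_eq le_rfl] at h1
    exact h1
  refine ⟨uf a, a, ⟨?_, fun t _ => uf_per t, fun t ht x => ?_, fun t ht k hk => ?_,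
    fun t _ ht k hk i => ?_⟩, ?_, hco, hTL, hreal, fun t => rfl, hBn⟩
  · rw [contDiffOn_pi]
    intro i
    have h1 := (hTL i).smooth
    have h2 : (fun z : ℝ × V => uf a z.1 z.2 i)
        = fun z => Complex.reCLM (SF (fun k t => a t k i) z) := by
      funext z
      rw [show z = (z.1, z.2) from rfl, SF_eq]
      rfl
    rw [h2]
    exact Complex.reCLM.contDiff.comp_contDiffOn h1
  · have ht0 : 0 ≤ t := ht
    have h1 := uf_div (a := fun s => a (th t s)) (B := B (t + 1)) (fun s => h0 _)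
      (fun s k m => hB (t + 1) (by linarith) _ (th_le t s) k m) (fun s k => hreal _ k)
      (fun s k => hdv _ k) (fun n i => TT_th hη hD h0 haΛ hB hc hd ht0 n i) ht0 x
    have e : uf (fun s => a (th t s)) t = uf a t := by
      funext x i
      show (S (fun k => a (th t t) k i) x).re = (S (fun k => a t k i) x).re
      rw [th_eq le_rfl]
    rw [e] at h1
    exact h1
  · rw [hco t ht]; exact haΛ t k hk
  · have h1 := (hasDerivAt_pi.1 (hd t ht k hk)) i
    rw [hco t ht.le]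
    refine (h1.congr_of_eventuallyEq ?_).congr_deriv (Fk_apply _ _ _)
    filter_upwards [lt_mem_nhds ht] with s hs
    rw [hco s hs.le]
  · funext x i
    unfold uf
    rw [ha0]
    have := S_fr (hsp i) x
    have e : (fun k => co u₀ k i) = fr (fun x => u₀ x i) := rfl
    rw [e, this, Complex.ofReal_re]

end Pool.Agent.H226.DE
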