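import Pool.Agent.H226.DE.Exi
import Pool.Agent.H303.DEG.Sol

/-!
Existence in physical space, with the pressure and with the bounds of the norms (the same proof as
in `Pool.Agent.H226.DE.Exi`, with one more conclusion).
-/

open MeasureTheory Set Filter Topology
open scoped ENNReal NNReal ContDiff
open H459R3.NS Pool.Agent.X96.HT
open Pool.Agent.X96.DM hiding LL Fk Fk_apply exists_lim TT_all exists_sol uniq
open Pool.Agent.H356R3.NS (SFam RD TT pw pw_pos one_le_pw pw_sub cvv SF)

namespace Pool.Agent.H226.DE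

open Pool.Agent.H226.SW hiding Fk Fk_apply Pol D_bw L2 norm_visc norm_Fk_le Fk_sub_le exists_lim
  TT_all exists_sol uniq diff_deriv

theorem existsLB {Lo : (V → ℝ) → V → ℝ} {D : K3 → ℂ} {Cd : ℝ} {r : ℕ} (hL : Symb Lo D)
    (hD : PolC Cd r D) (hr : 1 ≤ r) {u₀ : V → V} (hs : ContDiff ℝ ∞ u₀) (hper : Per u₀)
    (hdiv : ∀ x, ∑ i, pd i (fun y => u₀ y i) x = 0) {B : ℝ → ℕ → ℝ}
    (hBm : ∀ n, Monotone fun t => B t n)
    (hap : ∀ S : Finset K3, (0 : K3) ∉ S → ∀ (T : ℝ) (a : ℝ → K3 → C3),
      GalC (fun _ _ _ => 1) (Dm D (mn u₀)) T S a →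
      (∀ n, hn n (a 0) ≤ hn n (co (sb (mn u₀) u₀))) → ∀ t ∈ Icc 0 T, ∀ n,
        hn n (a t) ≤ B t n) :
    ∃ (u : ℝ → V → V) (p : ℝ → V → ℝ), IsSolL Lo (Ici 0) u p ∧ u 0 = u₀ ∧
      ∀ T, 0 ≤ T → ∀ t ∈ Icc 0 T, ∀ n, hn n (co (sb (mn u₀) (u t))) ≤ B T n := by
  set m := mn u₀ with hm
  have hsp₀ : ∀ i, SP (fun x => u₀ x i) := fun i =>
    ⟨(contDiff_pi.1 hs) i, fun j x => congrFun (hper j x) i⟩
  have hco₀ : co (sb m u₀) 0 = 0 := co_sb_zero hsp₀ fun i => co_zero_eq u₀ i
  obtain ⟨v, a, hv, hv0, hva, hTL, hreal, huf, hBn⟩ := exists_solB (η := fun _ _ _ => 1)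
    (D := Dm D m) (Λ := {0}ᶜ) (u₀ := sb m u₀) (B := B) (isWeight_rwt one1_le)
    (Dm_conj hL.conj m) (fun k => by rw [re_Dm]; exact hL.nonneg k) (polC_Dm hD m hr)
    (fun k hk => by simpa using hk) (by simp) (by
      rw [contDiff_pi]
      intro i
      exact (sp_sb hsp₀ i).smooth) (by
      intro j x
      funext i
      exact (sp_sb hsp₀ i).per j x) (by
      intro x
      simp_rw [pd_sb]
      exact hdiv x) (fun k hk => by
      have hk0 : k = 0 := by simpa using hk
      rw [hk0]; exact hco₀) hBm (fun S h0 _ T a h1 h2 => hap S h0 T a h1 h2)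
  set u : ℝ → V → V := fun t x i => v t x i + m i with hu
  have hvu : ∀ t, v t = sb m (u t) := by
    intro t; funext x i; simp [hu, sb]
  have husm : ContDiffOn ℝ ∞ (fun z : ℝ × V => u z.1 z.2) (Ici 0 ×ˢ univ) := by
    rw [contDiffOn_pi]
    intro i
    exact ((contDiffOn_pi.1 hv.smooth) i).add contDiffOn_const
  have hper_u : ∀ t ∈ Ici (0 : ℝ), Per (u t) := by
    intro t ht j x
    funext i
    show v t (x + Pi.single j 1) i + m i = v t x i + m i
    rw [hv.per t ht j x]
  have hpdu : ∀ t i j, pd j (fun y => u t y i) = pd j (fun y => v t y i) := by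
    intro t i j
    exact pd_add_const _ _ _
  refine ⟨u, pf a, ⟨husm, pf_smooth hTL, hper_u, fun t _ => pf_per a t, fun t ht x => ?_,
    fun t ht ht0 x i => ?_⟩, ?_, fun T hT t ht n => by
      rw [← hvu, hva t ht.1]
      exact hBn T hT t ht.2 n⟩
  · simp_rw [hpdu]
    exact hv.divfree t ht x
  · set T := t + 1 with hT
    have htT : t ∈ Ioo 0 T := ⟨ht0, by linarith⟩
    have hsub : Ico 0 T ⊆ Ici (0 : ℝ) := fun s hs => hs.1
    have hsm : ∀ i, ContDiffOn ℝ ∞ (fun z : ℝ × V => u z.1 z.2 i) (Ico 0 T ×ˢ univ) := fun i =>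
      ((contDiffOn_pi.1 husm) i).mono (prod_mono hsub Subset.rfl)
    have hspu : ∀ s ∈ Ico 0 T, ∀ i, SP (fun y => u s y i) := fun s hs i =>
      ⟨contDiff_slice (f := fun t y => u t y i) (hsm i) hs,
        fun j x => congrFun (hper_u s hs.1 j x) i⟩
    have hspv : ∀ s ∈ Ico 0 T, ∀ i, SP (fun y => v s y i) := fun s hs i => by
      have := sp_sb (m := m) (hspu s hs) i
      rwa [← hvu] at this
    have htI : t ∈ Ico 0 T := ⟨ht0.le, htT.2⟩
    have hpt : SP (pf a t) := ⟨contDiff_slice (f := pf a)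
      ((pf_smooth hTL).mono (prod_mono hsub Subset.rfl)) htI, pf_per a t⟩
    have hcod : ∀ k i, HasDerivAt (fun s => co (u s) k i) (cod u t k i) t :=
      fun k i => hasDerivAt_fr (f := fun s y => u s y i) (hsm i) htT k
    have hdvu : ∀ s ∈ Ico 0 T, ∀ x, ∑ i, pd i (fun y => u s y i) x = 0 := fun s hs x => by
      simp_rw [hpdu]
      exact hv.divfree s hs.1 x
    have hdvv : ∀ s ∈ Ico 0 T, ∀ x, ∑ i, pd i (fun y => v s y i) x = 0 := fun s hs x =>
      hv.divfree s hs.1 x
    have hcv0 : ∀ s ∈ Ico 0 T, co (v s) 0 = 0 := fun s hs => hv.supp s hs.1 0 (by simp)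
    -- the residual
    set R : V → ℝ := fun x => dt (fun s y => u s y i) t x
      + (conv (fun i y => u t y i) i x + ((-1) * Lo (fun y => u t y i) x + pd i (pf a t) x)) with hR
    have s1 : SP (dt (fun s y => u s y i) t) := sp_dt (f := fun s y => u s y i) (hsm i)
      (fun s hs => (hspu s hs i).per) htT
    have s2 : SP (conv (fun i y => u t y i) i) :=
      Pool.Agent.X96.HT.sp_conv (v := u t) (hspu t htI) i
    have s3 : SP (Lo fun y => u t y i) := hL.sp (hspu t htI i)
    have s4 : SP (pd i (pf a t)) := hpt.pd i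
    have s3' : SP fun x => (-1) * Lo (fun y => u t y i) x := (sp_const (-1)).mul s3
    have hRsp : SP R := s1.add (s2.add (s3'.add s4))
    have hR0 : ∀ k, fr R k = 0 := by
      intro k
      have e1 : fr R k = cod u t k i + (fr (conv (fun i y => u t y i) i) k
          + ((-1 : ℝ) * (-D k * co (u t) k i) + 2 * Real.pi * Complex.I * (k i : ℂ)
            * fr (pf a t) k)) := by
        rw [hR, fr_add (f := dt (fun s y => u s y i) t)
          (g := fun x => conv (fun i y => u t y i) i x
            + ((-1) * Lo (fun y => u t y i) x + pd i (pf a t) x)) s1.cont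
          (s2.add (s3'.add s4)).cont,
          fr_add (f := conv (fun i y => u t y i) i)
          (g := fun x => ((-1) * Lo (fun y => u t y i) x + pd i (pf a t) x)) s2.cont
          (s3'.add s4).cont,
          fr_add (f := fun x => (-1) * Lo (fun y => u t y i) x)
          (g := pd i (pf a t)) s3'.cont s4.cont, fr_smul, hL.fr (hspu t htI i), fr_pd hpt]
        rfl
      rw [e1]
      by_cases hk : k = 0
      · subst hk
        have h1 : cod u t 0 i = 0 := by
          refine (hcod 0 i).unique ?_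
          refine (hasDerivAt_const t (m i : ℂ)).congr_of_eventuallyEq ?_
          filter_upwards [Ioo_mem_nhds htT.1 htT.2] with s hs
          have hs' : s ∈ Ico 0 T := ⟨hs.1.le, hs.2⟩
          have h2 := congrFun (hcv0 s hs') i
          rw [hvu] at h2
          unfold co at h2 ⊢
          rw [sb_eq, fr_add (hspu s hs' i).cont continuous_const, fr_const, if_pos rfl] at h2
          simp only [Complex.ofReal_neg, Pi.zero_apply] at h2
          linear_combination h2
        rw [h1, fr_conv_zero (hspu t htI) (dp_co (hspu t htI) (hdvu t htI)), hL.zero]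
        simp
      · have hat := hva t ht0.le
        have h1 : cod u t k i = -Dm D m k * co (v t) k i
            - nonl (fun _ _ _ => 1) (co (v t)) k i := by
          refine (hcod k i).unique ?_
          have h2 := hv.eqn t ht ht0 k (by simpa using hk) i
          refine h2.congr_of_eventuallyEq ?_
          filter_upwards [Ioo_mem_nhds htT.1 htT.2] with s hs
          rw [hvu, co_sb (hspu s ⟨hs.1.le, hs.2⟩) hk]
        have h3 : co (u t) k i = co (v t) k i := by
          rw [hvu, co_sb (hspu t htI) hk]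
        have h4 := fr_conv_sb (m := m) (hspu t htI) i k
        rw [h3] at h4
        have h4' : fr (conv (fun i y => sb m (u t) y i) i) k
            = fr (conv (fun i y => v t y i) i) k := by rw [← hvu]
        rw [h4'] at h4
        rw [h1, nonl_one_lry (hspv t htI) (dp_co (hspv t htI) (hdvv t htI)) (hcv0 t htI) hk, h4,
          h3, fr_pf hTL (hspv t htI) ht0.le hat.symm, ph_eq (hspv t htI) hat.symm]
        have hkn : (kn k : ℂ) ≠ 0 := by exact_mod_cast (kn_pos hk).ne'
        have hpi : (Real.pi : ℂ) ≠ 0 := by exact_mod_cast Real.pi_pos.ne'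
        have hpc : ∀ j, pc k j = Complex.I * (k j : ℂ) / (2 * Real.pi * (kn k : ℂ) ^ 2) := fun j => by
          unfold pc; rw [if_neg hk]
        simp_rw [hpc]
        rw [Fin.sum_univ_three]
        unfold lry dp Dm
        simp only [Pi.sub_apply, Pi.smul_apply, smul_eq_mul, kc]
        have hI := Complex.I_sq
        field_simp
        push_cast
        linear_combination ((k i : ℂ) * ((k 0 : ℂ) * fr (conv (fun i y => v t y i) 0) k
          + (k 1 : ℂ) * fr (conv (fun i y => v t y i) 1) k
          + (k 2 : ℂ) * fr (conv (fun i y => v t y i) 2) k)) * hI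
    have h5 := sp_zero_of_fr hRsp hR0 x
    simp only [hR] at h5
    have h6 : dt (fun s y => u s y i) t x = deriv (fun s => u s x i) t := rfl
    have h7 : conv (fun i y => u t y i) i x = ∑ j, u t x j * pd j (fun y => u t y i) x := rfl
    rw [h6, h7] at h5
    linarith
  · funext x i
    show v 0 x i + m i = u₀ x i
    rw [hv0]
    simp [sb]

end Pool.Agent.H226.DE
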