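import Pool.Agent.H303.DEG.Exi
import Pool.Agent.H303.DEG.Apr
import Pool.Agent.H226.DE.Fin
import Pool.Agent.H259.ND.Ex3
import Pool.Agent.H303.DEE.Odd
import Pool.Agent.H303.DEE.Stm2

/-!
Global smooth solutions with a uniform bound of the enstrophy.
-/

open MeasureTheory Set Filter Topology
open scoped ENNReal NNReal ContDiff
open H459R3.NS Pool.Agent.X96.HT
open Pool.Agent.X96.DM hiding LL Fk Fk_apply exists_lim TT_all exists_sol uniq
open Pool.Agent.H226.DE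
open Pool.Agent.H226.SW hiding Fk Fk_apply Pol D_bw L2 norm_visc norm_Fk_le Fk_sub_le exists_lim
  TT_all exists_sol uniq diff_deriv

namespace Pool.Agent.H303.DEG

/-- uniform a priori bounds -/
def UA (D : K3 → ℂ) : Prop := ∀ E₀ : ℝ, 0 ≤ E₀ → ∀ m : ℕ, ∃ B : ℝ → ℝ, Monotone B ∧
  (∀ t, 0 ≤ B t) ∧ ∀ (γ : V) (S : Finset K3), (0 : K3) ∉ S → ∀ (T : ℝ) (a : ℝ → K3 → C3),
    GalC (fun _ _ _ => 1) (Dm D γ) T S a → hn 0 (a 0) ≤ E₀ → ∀ t ∈ Icc 0 T,
      hn (2 * (m + 1)) (a t) ≤ B t * hn (2 * (m + 1)) (a 0)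

theorem globUA {Lo : (V → ℝ) → V → ℝ} {D : K3 → ℂ} {Cd : ℝ} {r : ℕ} (hL : Symb Lo D)
    (hD : PolC Cd r D) (hr : 1 ≤ r) (hU : UA D) (E₀ : ℝ) (hE₀ : 0 ≤ E₀) (T : ℝ) (hT : 0 ≤ T) :
    ∃ M : ℝ, 0 ≤ M ∧ ∀ u₀ : V → V, ContDiff ℝ ∞ u₀ → Per u₀ →
      (∀ x, ∑ i, pd i (fun y => u₀ y i) x = 0) → hn 0 (co (sb (mn u₀) u₀)) ≤ E₀ →
      ∃ (u : ℝ → V → V) (p : ℝ → V → ℝ), IsSolL Lo (Ici 0) u p ∧ u 0 = u₀ ∧
        ∀ t ∈ Icc 0 T, hn 2 (co (sb (mn u₀) (u t))) ≤ M * hn 2 (co (sb (mn u₀) u₀)) := by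
  choose B hBm hB0 hBB using hU E₀ hE₀
  refine ⟨B 0 T, hB0 0 T, fun u₀ hs hper hdiv hE => ?_⟩
  set v₀ := sb (mn u₀) u₀ with hv₀
  obtain ⟨u, p, h1, h2, h3⟩ := existsLB hL hD hr hs hper hdiv
    (B := fun t k => if k = 2 then B 0 t * hn 2 (co v₀) else B k t * hn (2 * (k + 1)) (co v₀))
    (fun n => by
      intro t t' htt
      dsimp only
      split_ifs with hn2
      · have := hn_nonneg_all 2 (co v₀)
        exact mul_le_mul_of_nonneg_right (hBm 0 htt) this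
      · have := hn_nonneg_all (2 * (n + 1)) (co v₀)
        exact mul_le_mul_of_nonneg_right (hBm n htt) this)
    (fun S h0 T' a ha h1 t ht n => by
      have hE' : hn 0 (a 0) ≤ E₀ := (h1 0).trans hE
      split_ifs with hn2
      · subst hn2
        refine (hBB 0 (mn u₀) S h0 T' a ha hE' t ht).trans ?_
        exact mul_le_mul_of_nonneg_left (h1 2) (hB0 0 t)
      · refine (hn_mono_fin (ha.supp t) h0 (by omega : n ≤ 2 * (n + 1))).trans ?_
        refine (hBB n (mn u₀) S h0 T' a ha hE' t ht).trans ?_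
        exact mul_le_mul_of_nonneg_left (h1 _) (hB0 n t))
  refine ⟨u, p, h1, h2, fun t ht => ?_⟩
  have h4 := h3 T hT t ht 2
  simpa using h4

/-- few near resonant triads -/
theorem ua_few {D : K3 → ℂ} {ν' : ℝ} (hν : 0 < ν')
    (hc : ∀ k, D (-k) = (starRingEnd ℂ) (D k)) (hDν : ∀ k, ν' * kn k ^ 2 ≤ (D k).re)
    (hfew : ∀ Λ : ℝ, 0 ≤ Λ → ∃ C, 1 ≤ C ∧
      Few (fun L m => |dl (fun k => (D k).im) L m| ≤ Λ * kn L ^ 3) C) : UA D := by
  intro E₀ hE₀ m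
  obtain ⟨B, hB, h⟩ := aprU (ν' := ν') 1 (by norm_num) hν E₀ hE₀
    (𝒟 := range fun γ : V => Dm D γ) (by
      rintro _ ⟨γ, rfl⟩
      exact Dm_conj hc γ) (by
      rintro _ ⟨γ, rfl⟩ k
      show ν' * kn k ^ 2 ≤ (Dm D γ k).re
      rw [re_Dm]; exact hDν k) (by
      intro Λ hΛ
      obtain ⟨C, hC1, hC⟩ := hfew Λ hΛ
      refine ⟨C, hC1, ?_⟩
      rintro _ ⟨γ, rfl⟩
      show Few (fun L m => |dl (fun k => (Dm D γ k).im) L m| ≤ Λ * kn L ^ 3) C
      simp only [dl_Dm]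
      exact hC) m
  refine ⟨fun _ => B, monotone_const, fun _ => hB, fun γ S h0 T a ha hE t ht => ?_⟩
  exact h (Dm D γ) ⟨γ, rfl⟩ (fun _ _ _ => 1) (isWeight_rwt one1_le) one_le_H S h0 T a ha hE t ht

/-- the cubic dispersion -/
theorem ua_cubic {D : K3 → ℂ} {β : Fin 3 → ℝ} (hβ : ∀ i, β i ≠ 0) {ν' Cd : ℝ} (hν : 0 < ν')
    (hCd : 0 ≤ Cd) (him : ∀ k, (D k).im = Pool.Agent.H259.ND.ph3 β 0 k)
    (hlo : ∀ k, ν' * kn k ^ 2 ≤ (D k).re) (hhi : ∀ k, (D k).re ≤ Cd * kn k ^ 2) : UA D := by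
  intro E₀ hE₀ m
  obtain ⟨K, hK⟩ := Pool.Agent.H259.ND.all_C4 β hβ (12 * Real.pi) Cd ν' E₀ (m + 1)
    (by have := Real.pi_pos; positivity) hCd hν hE₀ (Nat.succ_pos m)
  refine ⟨fun t => 4 ^ (K * (⌈t⌉₊ + 1)), fun t t' htt => ?_, fun t => by positivity,
    fun γ S h0 T a ha hE t ht => ?_⟩
  · have h2 : ⌈t⌉₊ ≤ ⌈t'⌉₊ := Nat.ceil_mono htt
    show (4 : ℝ) ^ (K * (⌈t⌉₊ + 1)) ≤ 4 ^ (K * (⌈t'⌉₊ + 1))
    gcongr
    norm_num
  · have hT : 0 ≤ T := ht.1.trans ht.2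
    have hG := Pool.Agent.H259.ND.galGS (D := Dm D γ) (β := β)
      (γ := fun i => 2 * Real.pi * γ i) hν hCd hE₀
      (Pool.Agent.H259.ND.im_Dm him _) (fun k => by rw [re_Dm]; exact hlo k)
      (fun k => by rw [re_Dm]; exact hhi k) h0 hT ha hE
    have h2 := hK _ _ S T _ _ hG t ht
    simp only [Pool.Agent.H259.ND.cl_eq ht,
      Pool.Agent.H259.ND.cl_eq (⟨le_rfl, hT⟩ : (0 : ℝ) ∈ Icc 0 T)] at h2
    rw [Pool.Agent.H259.ND.hn_even (ha.supp t), Pool.Agent.H259.ND.hn_even (ha.supp 0)] at h2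
    exact h2

lemma ens {v : V → V} (hv : ∀ i, SP (fun x => v x i)) (m : V) :
    enstrophy v = (2 * Real.pi) ^ 2 * hn 2 (co (sb m v)) := by
  rw [← enstrophy_eq (sp_sb hv)]
  unfold enstrophy
  simp_rw [pd_sb]

lemma hn02 {v : V → V} (hv : ∀ i, SP (fun x => v x i)) (h0 : co v 0 = 0) :
    hn 0 (co v) ≤ hn 2 (co v) := by
  have hr := rapV_co hv
  unfold hn
  refine Summable.tsum_le_tsum (fun k => ?_) (hr.hn_summable 0) (hr.hn_summable 2)
  by_cases hk : k = 0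
  · subst hk
    rw [h0]; simp
  · have := one_le_kn hk
    have h1 : kn k ^ 0 ≤ kn k ^ 2 := pow_le_pow_right₀ this (by norm_num)
    gcongr

lemma ens_int {v : V → V} (hv : ContDiff ℝ ∞ v) (hp : Per v) :
    ∫ x in Pool.Agent.H303.DEE.Q, ∑ i, ∑ j,
      Pool.Agent.H303.DEE.partialD 1 j (fun y => v y i) x ^ 2 = enstrophy v := by
  have hsp : ∀ i, SP (fun x => v x i) := fun i =>
    ⟨(contDiff_pi.1 hv) i, fun j x => congrFun (hp j x) i⟩
  have e : ∀ i j x, Pool.Agent.H303.DEE.partialD 1 j (fun y => v y i) x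
      = pd j (fun y => v y i) x := fun i j x =>
    Pool.Agent.H303.DEE.Odd.partialD_one ((contDiff_pi.1 hv) i) j x
  simp_rw [e]
  unfold enstrophy
  have hi : ∀ i j, IntegrableOn (fun x => pd j (fun y => v y i) x ^ 2) cube := fun i j =>
    integrableOn_cube ((((hsp i).pd j).cont).pow 2)
  show ∫ x in cube, ∑ i, ∑ j, pd j (fun y => v y i) x ^ 2 = _
  rw [integral_finsetSum _ fun i _ => integrable_finsetSum _ fun j _ => hi i j]
  refine Finset.sum_congr rfl fun i _ => ?_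
  rw [integral_finsetSum _ fun j _ => hi i j]

/-- global smooth solutions with a bound of the enstrophy -/
theorem globB {n : ℕ} (ho : Odd n) (h3 : 3 ≤ n) {ν : ℝ} (hν : 0 < ν) {α : Fin 3 → ℝ}
    (hα : ∀ j, α j ≠ 0) : Pool.Agent.H303.DEE.GlobB n ν α := by
  have hL := symb_opL (ι := Fin 3) ho hν.le α fun (j : Fin 3) (_ : Fin n) => j
  have hP := polC_syL (ι := Fin 3) hν.le α fun (j : Fin 3) (_ : Fin n) => j
  have hpi := Real.pi_pos
  have hUA : UA (syL ν α fun (j : Fin 3) (_ : Fin n) => j) := by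
    rcases eq_or_lt_of_le h3 with rfl | h4
    · refine ua_cubic (β := fun j => -(Pool.Agent.H226.DE.sg 3 * (2 * Real.pi) ^ 3 * α j)) (fun j => ?_)
        (ν' := ν * (2 * Real.pi) ^ 2) (Cd := ν * (2 * Real.pi) ^ 2) (by positivity) (by positivity)
        Pool.Agent.H303.DEE.Odd.im_cubic (fun k => ?_) (fun k => ?_)
      · have h1 : Pool.Agent.H226.DE.sg 3 ≠ 0 := fun h => by
          have := sg_abs 3
          rw [h, abs_zero] at this
          exact zero_ne_one this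
        exact neg_ne_zero.2 (mul_ne_zero (mul_ne_zero h1 (by positivity)) (hα j))
      · rw [syL_re ho]
        exact le_of_eq (by ring)
      · rw [syL_re ho]
        exact le_of_eq (by ring)
    · have h5 : 5 ≤ n := by
        obtain ⟨m, rfl⟩ := ho
        omega
      refine ua_few (ν' := ν * (2 * Real.pi) ^ 2) (by positivity) hL.conj (fun k => ?_)
        (fun Λ hΛ => Pool.Agent.H303.DEE.Odd.few ho h5 hα Λ hΛ)
      rw [syL_re ho]
      exact le_of_eq (by ring)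
  intro R T
  obtain ⟨M, hM0, hM⟩ := globUA hL hP (by omega) hUA |R| (abs_nonneg R) (max T 0) (le_max_right _ _)
  refine ⟨M * |R|, fun u₀ h hR => ?_⟩
  have hsp : ∀ i, SP (fun x => u₀ x i) := fun i =>
    ⟨(contDiff_pi.1 h.smooth) i, fun j x => congrFun (h.per j x) i⟩
  have hsp' := sp_sb (m := mn u₀) hsp
  have hco : co (sb (mn u₀) u₀) 0 = 0 := co_sb_zero hsp fun i => co_zero_eq u₀ i
  have hens : enstrophy u₀ = (2 * Real.pi) ^ 2 * hn 2 (co (sb (mn u₀) u₀)) := ens hsp _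
  have hpos := hn_nonneg_all 2 (co (sb (mn u₀) u₀))
  have h1 : enstrophy u₀ ≤ |R| := by
    rw [← ens_int h.smooth h.per]
    have h2 : 0 ≤ ∫ x in Pool.Agent.H303.DEE.Q, ∑ i, u₀ x i ^ 2 :=
      integral_nonneg fun x => Finset.sum_nonneg fun i _ => sq_nonneg _
    exact (by linarith : _ ≤ R).trans (le_abs_self R)
  have h2pi : 1 ≤ (2 * Real.pi) ^ 2 := by nlinarith [Real.pi_gt_three]
  have hE : hn 0 (co (sb (mn u₀) u₀)) ≤ |R| := by
    refine (hn02 hsp' hco).trans (le_trans ?_ h1)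
    rw [hens]
    exact le_mul_of_one_le_left hpos h2pi
  have hdiv : ∀ x, ∑ j, pd j (fun y => u₀ y j) x = 0 := fun x => by
    rw [← h.divfree x]
    exact Finset.sum_congr rfl fun j _ =>
      (Pool.Agent.H303.DEE.Odd.partialD_one ((contDiff_pi.1 h.smooth) j) j x).symm
  obtain ⟨v, p, hv, hv0, hb⟩ := hM u₀ h.smooth h.per hdiv hE
  have hv' := Pool.Agent.H303.DEE.Odd.toL.2 hv
  refine ⟨v, p, ⟨hv'.smooth_u, hv'.smooth_p, hv'.per_u, hv'.per_p, hv'.divfree, hv'.momentum⟩,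
    hv0, fun t ht => ?_⟩
  have ht' : t ∈ Icc 0 (max T 0) := ⟨ht.1, ht.2.trans (le_max_left _ _)⟩
  have hvs : ContDiff ℝ ∞ (v t) := by
    rw [← contDiffOn_univ]
    exact hv.smooth_u.comp (contDiff_const.prodMk contDiff_id).contDiffOn
      (fun x _ => ⟨ht.1, mem_univ _⟩)
  have hspt : ∀ i, SP (fun x => v t x i) := fun i =>
    ⟨(contDiff_pi.1 hvs) i, fun j x => congrFun (hv.per_u t ht.1 j x) i⟩
  have h5 : ∫ x in Pool.Agent.H303.DEE.Q, ∑ i, ∑ j, Pool.Agent.H303.DEE.grd v t x i j ^ 2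
      = enstrophy (v t) := ens_int hvs (hv.per_u t ht.1)
  rw [h5, ens hspt (mn u₀)]
  calc (2 * Real.pi) ^ 2 * hn 2 (co (sb (mn u₀) (v t)))
      ≤ (2 * Real.pi) ^ 2 * (M * hn 2 (co (sb (mn u₀) u₀))) := by
        gcongr
        exact hb t ht'
    _ = M * enstrophy u₀ := by rw [hens]; ring
    _ ≤ M * |R| := by gcongr

end Pool.Agent.H303.DEG
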